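import Pool.Agent.Lib.MP_2a564b_nt.Field

set_option autoImplicit false

/-!
# A constant below two for the extension of every finite Sidon set

A Sidon set `D` modulo `N = q ^ 2 - 1` with `q` elements (`q` prime; Bose and Chowla) is well distributed in
intervals (second moment, `W_le`). The elements of a translate of `D` in the interval `(N - l, 2 N - l]` form a
Sidon set; a conflict `x + y = z + a` with a small number `a` forces `x, y ≤ N + a`, and the mean number of
conflicts over all translates is at most `(1 / 4 + o(1)) (l / N) ^ 2 q` (`pairs_le`, `sum_conf`). Deleting one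
element for each conflict and taking `l = N / (2 k)` gives the constant `2 - 1 / (4 k)`.
-/

namespace Pool.Agent.Results.MP_2a564b_nt.BelowTwo

open Finset Pool.Agent.Lib.MP_2a564b_nt


theorem exists_mod_sidon (p : ℕ) (hp : p.Prime) : ∃ D : Finset (ZMod (p ^ 2 - 1)), D.card = p ∧
    ∀ a ∈ D, ∀ b ∈ D, ∀ c ∈ D, ∀ d ∈ D, a + b = c + d → (a = c ∧ b = d) ∨ (a = d ∧ b = c) := by
  classical
  have := Fact.mk hp
  set K := GaloisField p 2
  have : Fintype K := Fintype.ofFinite K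
  have hK : Fintype.card K = (p ^ 1) ^ 2 := by
    rw [← Nat.card_eq_fintype_card, GaloisField.card p 2 (by norm_num), pow_one]
  have hcardU : Nat.card Kˣ = p ^ 2 - 1 := by
    rw [Nat.card_units, Nat.card_eq_fintype_card, hK, pow_one]
  have hτ : (1 : K) ^ (p ^ 1) = 1 := one_pow _
  have hL := lineSet_card (K := K) (p := p) (m := 1) one_ne_zero hK (τ := 1) hτ
  rw [← hcardU]
  let e := zmodCyclicMulEquiv (G := Kˣ) inferInstance
  have hne : ∀ y ∈ lineSet K (p ^ 1) 1, y ≠ 0 := by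
    intro y hy h0
    rw [mem_lineSet, h0, zero_pow (pow_ne_zero 1 hp.ne_zero), add_zero] at hy
    exact zero_ne_one hy
  refine ⟨Finset.image (fun u : Kˣ => Multiplicative.toAdd (e.symm u))
    (Finset.filter (fun u : Kˣ => (u : K) ∈ lineSet K (p ^ 1) 1) (Finset.univ : Finset Kˣ)), ?_, ?_⟩
  · have hinj : Function.Injective (fun u : Kˣ => Multiplicative.toAdd (e.symm u)) :=
      fun u w h => e.symm.injective (Multiplicative.toAdd.injective h)
    rw [Finset.card_image_of_injective _ hinj]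
    refine Eq.trans ?_ (hL.trans (pow_one p))
    apply Finset.card_bij (fun (u : Kˣ) _ => (u : K))
    · intro u hu
      exact (mem_filter.1 hu).2
    · intro u _ w _ h
      exact Units.ext h
    · intro y hy
      exact ⟨Units.mk0 y (hne y hy), mem_filter.2 ⟨mem_univ _, hy⟩, rfl⟩
  · intro a ha b hb c hc d hd h
    obtain ⟨a', ha', rfl⟩ := mem_image.1 ha
    obtain ⟨b', hb', rfl⟩ := mem_image.1 hb
    obtain ⟨c', hc', rfl⟩ := mem_image.1 hc
    obtain ⟨d', hd', rfl⟩ := mem_image.1 hd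
    have h1 : e.symm a' * e.symm b' = e.symm c' * e.symm d' := by
      apply Multiplicative.toAdd.injective
      simpa using h
    rw [← map_mul, ← map_mul] at h1
    have h2 := e.symm.injective h1
    have h3 : (a' : K) * b' = c' * d' := by
      rw [← Units.val_mul, h2, Units.val_mul]
    rcases lineSet_sidon (one_ne_zero) (mem_filter.1 ha').2 (mem_filter.1 hb').2 (mem_filter.1 hc').2
      (mem_filter.1 hd').2 h3 with ⟨h4, h5⟩ | ⟨h4, h5⟩
    · left
      rw [Units.ext h4, Units.ext h5]; exact ⟨rfl, rfl⟩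
    · right
      rw [Units.ext h4, Units.ext h5]; exact ⟨rfl, rfl⟩


/-- `D` is a Sidon set in the group `ZMod N`. -/
def MSidon {N : ℕ} (D : Finset (ZMod N)) : Prop :=
  ∀ a ∈ D, ∀ b ∈ D, ∀ c ∈ D, ∀ d ∈ D, a + b = c + d → (a = c ∧ b = d) ∨ (a = d ∧ b = c)

/-- number of elements of `D` among `u, u+1, ..., u+h-1` -/
def W {N : ℕ} (D : Finset (ZMod N)) (u : ZMod N) (h : ℕ) : ℕ :=
  ((range h).filter (fun i : ℕ => u + (i : ZMod N) ∈ D)).card

theorem cast_inj_lt {N i j : ℕ} (hi : i < N) (hj : j < N) (h : (i : ZMod N) = (j : ZMod N)) : i = j := by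
  have h1 := (ZMod.natCast_eq_natCast_iff' i j N).1 h
  rwa [Nat.mod_eq_of_lt hi, Nat.mod_eq_of_lt hj] at h1

theorem sum_W {N : ℕ} [NeZero N] (D : Finset (ZMod N)) (h : ℕ) : ∑ u : ZMod N, W D u h = h * D.card := by
  unfold W
  simp_rw [Finset.card_filter]
  rw [Finset.sum_comm]
  have : ∀ i ∈ range h, ∑ u : ZMod N, (if u + (i : ZMod N) ∈ D then 1 else 0) = D.card := by
    intro i _
    rw [← Finset.card_filter]
    apply Finset.card_bij (fun u _ => u + (i : ZMod N))
    · intro u hu; exact (mem_filter.1 hu).2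
    · intro u _ w _ h; exact add_right_cancel h
    · intro d hd
      exact ⟨d - i, mem_filter.2 ⟨mem_univ _, by simpa using hd⟩, by simp⟩
  rw [Finset.sum_congr rfl this, Finset.sum_const, card_range, smul_eq_mul]

theorem sum_W_sq {N : ℕ} [NeZero N] (D : Finset (ZMod N)) (hD : MSidon D) {h : ℕ} (hh : h ≤ N) :
    ∑ u : ZMod N, (W D u h) ^ 2 ≤ h * D.card + h * (h - 1) := by
  classical
  have h1 : ∀ u : ZMod N, (W D u h) ^ 2 = ∑ p ∈ range h ×ˢ range h,
      (if u + (p.1 : ZMod N) ∈ D ∧ u + (p.2 : ZMod N) ∈ D then 1 else 0) := by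
    intro u
    rw [← Finset.card_filter, pow_two, W, ← Finset.card_product]
    congr 1
    ext p
    simp only [mem_product, mem_filter, mem_range]
    tauto
  simp_rw [h1]
  rw [Finset.sum_comm]
  have h2 : ∀ p ∈ range h ×ˢ range h, ∑ u : ZMod N,
      (if u + (p.1 : ZMod N) ∈ D ∧ u + (p.2 : ZMod N) ∈ D then 1 else 0) ≤ if p.1 = p.2 then D.card else 1 := by
    intro p hp
    rw [mem_product, mem_range, mem_range] at hp
    rw [← Finset.card_filter]
    by_cases hpp : p.1 = p.2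
    · rw [if_pos hpp]
      apply Finset.card_le_card_of_injOn (fun u => u + (p.1 : ZMod N))
      · intro u hu
        exact (mem_filter.1 hu).2.1
      · intro u _ w _ h; exact add_right_cancel h
    · rw [if_neg hpp, Finset.card_le_one]
      intro u hu w hw
      have hu' := (mem_filter.1 hu).2
      have hw' := (mem_filter.1 hw).2
      rcases hD _ hu'.1 _ hw'.2 _ hu'.2 _ hw'.1 (by ring) with h3 | h3
      · exfalso
        apply hpp
        exact cast_inj_lt (by omega) (by omega) (add_left_cancel h3.1)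
      · exact add_right_cancel h3.1
  refine (Finset.sum_le_sum h2).trans ?_
  rw [Finset.sum_ite, Finset.sum_const, Finset.sum_const, smul_eq_mul, smul_eq_mul, mul_one]
  have h3 : ((range h ×ˢ range h).filter (fun p => p.1 = p.2)).card = h := by
    have : (range h ×ˢ range h).filter (fun p => p.1 = p.2) = (range h).diag := by
      ext p
      simp only [mem_filter, mem_product, mem_diag]
      constructor
      · rintro ⟨⟨a, b⟩, c⟩; exact ⟨a, c⟩
      · rintro ⟨a, c⟩; exact ⟨⟨a, c ▸ a⟩, c⟩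
    rw [this, diag_card, card_range]
  have h4 : ((range h ×ˢ range h).filter (fun p => ¬ p.1 = p.2)).card = h * (h - 1) := by
    have h5 := Finset.card_filter_add_card_filter_not (s := range h ×ˢ range h) (fun p => p.1 = p.2)
    rw [h3, card_product, card_range] at h5
    have : h * h = h + h * (h - 1) := by
      rcases Nat.eq_zero_or_pos h with rfl | hpos
      · rfl
      · obtain ⟨g, rfl⟩ : ∃ g, h = g + 1 := ⟨h - 1, by omega⟩
        simp only [Nat.add_sub_cancel]; ring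
    omega
  rw [h3, h4]

theorem variance {N : ℕ} [NeZero N] (D : Finset (ZMod N)) (hD : MSidon D) (hq : N ≤ D.card ^ 2)
    {h : ℕ} (hh : h ≤ N) :
    ∑ u : ZMod N, ((W D u h : ℝ) - h * (D.card / N)) ^ 2 ≤ h * D.card := by
  have hN : (0 : ℝ) < N := by exact_mod_cast Nat.pos_of_ne_zero (NeZero.ne N)
  have h1 : (∑ u : ZMod N, (W D u h : ℝ)) = h * D.card := by exact_mod_cast sum_W D h
  have h2 : (∑ u : ZMod N, (W D u h : ℝ) ^ 2) ≤ h * D.card + h * h - h := by
    have h3 : ((∑ u : ZMod N, (W D u h) ^ 2 : ℕ) : ℝ) ≤ ((h * D.card + h * (h - 1) : ℕ) : ℝ) := by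
      exact_mod_cast sum_W_sq D hD hh
    push_cast at h3
    rcases Nat.eq_zero_or_pos h with rfl | hpos
    · simpa using h3
    · rw [Nat.cast_sub hpos] at h3
      push_cast at h3
      linarith
  have h3 : ∑ u : ZMod N, ((W D u h : ℝ) - h * (D.card / N)) ^ 2 =
      (∑ u : ZMod N, (W D u h : ℝ) ^ 2) - 2 * (h * (D.card / N)) * (∑ u : ZMod N, (W D u h : ℝ)) +
        N * (h * (D.card / N)) ^ 2 := by
    rw [Finset.mul_sum, ← Finset.sum_sub_distrib]
    have : (N : ℝ) * (h * (D.card / N)) ^ 2 = ∑ _u : ZMod N, ((h : ℝ) * (D.card / N)) ^ 2 := by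
      rw [Finset.sum_const, card_univ, ZMod.card, nsmul_eq_mul]
    rw [this, ← Finset.sum_add_distrib]
    apply Finset.sum_congr rfl
    intro u _
    ring
  rw [h3, h1]
  have hqN : (N : ℝ) ≤ (D.card : ℝ) ^ 2 := by exact_mod_cast hq
  have h4 : (N : ℝ) * (h * (D.card / N)) ^ 2 = h ^ 2 * (D.card ^ 2 / N) := by
    field_simp
  have h5 : (2 : ℝ) * (h * (D.card / N)) * (h * D.card) = 2 * (h ^ 2 * (D.card ^ 2 / N)) := by
    field_simp
  rw [h4, h5]
  have h6 : (1 : ℝ) ≤ D.card ^ 2 / N := by rw [le_div_iff₀ hN]; linarith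
  have h7 : (h : ℝ) ^ 2 ≤ h ^ 2 * (D.card ^ 2 / N) := by nlinarith [sq_nonneg (h : ℝ)]
  have h8 : (0 : ℝ) ≤ h := Nat.cast_nonneg h
  nlinarith

theorem W_mono_window {N : ℕ} (D : Finset (ZMod N)) (u : ZMod N) (h m j : ℕ) (hj : j ≤ m) :
    W D u h ≤ W D (u - j) (h + m) := by
  unfold W
  apply Finset.card_le_card_of_injOn (fun i => i + j)
  · intro i hi
    have hi' := mem_filter.1 (Finset.mem_coe.1 hi)
    rw [mem_range] at hi'
    apply Finset.mem_coe.2
    rw [mem_filter, mem_range]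
    refine ⟨(by change i + j < h + m; omega), ?_⟩
    push_cast
    have : u - (j : ZMod N) + ((i : ZMod N) + j) = u + i := by ring
    rw [this]; exact hi'.2
  · intro a _ b _ h; exact Nat.add_right_cancel h

theorem W_le {N : ℕ} [NeZero N] (D : Finset (ZMod N)) (hD : MSidon D) (hq : N ≤ D.card ^ 2)
    (u : ZMod N) {h m : ℕ} (hm : 0 < m) (hh : h + m ≤ N) :
    (W D u h : ℝ) ≤ h * (D.card / N) + (m * (D.card / N) + Real.sqrt (N * D.card / m)) := by
  classical
  have hN : (0 : ℝ) < N := by exact_mod_cast Nat.pos_of_ne_zero (NeZero.ne N)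
  have hmr : (0 : ℝ) < m := by exact_mod_cast hm
  set κ : ℝ := D.card / N with hκ
  by_cases hcase : (W D u h : ℝ) ≤ (h + m) * κ
  · have := Real.sqrt_nonneg (N * D.card / m : ℝ)
    nlinarith
  · push Not at hcase
    have h1 : (m : ℝ) * ((W D u h : ℝ) - (h + m) * κ) ^ 2 ≤
        ∑ v : ZMod N, ((W D v (h + m) : ℝ) - ((h + m : ℕ) : ℝ) * κ) ^ 2 := by
      have himg : ((range m).image (fun j : ℕ => u - (j : ZMod N))).card = m := by
        rw [Finset.card_image_of_injOn, card_range]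
        intro a ha b hb hab
        rw [Finset.coe_range, Set.mem_Iio] at ha hb
        have : (a : ZMod N) = (b : ZMod N) := by
          have h := sub_right_injective hab
          exact h
        exact cast_inj_lt (by omega) (by omega) this
      calc (m : ℝ) * ((W D u h : ℝ) - (h + m) * κ) ^ 2
          = ∑ v ∈ (range m).image (fun j : ℕ => u - (j : ZMod N)), ((W D u h : ℝ) - (h + m) * κ) ^ 2 := by
            rw [Finset.sum_const, himg, nsmul_eq_mul]
        _ ≤ ∑ v ∈ (range m).image (fun j : ℕ => u - (j : ZMod N)), ((W D v (h + m) : ℝ) - ((h + m : ℕ) : ℝ) * κ) ^ 2 := by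
            apply Finset.sum_le_sum
            intro v hv
            obtain ⟨j, hj, rfl⟩ := mem_image.1 hv
            rw [mem_range] at hj
            have h2 : (W D u h : ℝ) ≤ W D (u - j) (h + m) := by
              exact_mod_cast W_mono_window D u h m j hj.le
            push_cast
            have h3 : (0 : ℝ) ≤ (W D u h : ℝ) - (h + m) * κ := by linarith
            apply pow_le_pow_left₀ h3
            linarith
        _ ≤ _ := by
            apply Finset.sum_le_sum_of_subset_of_nonneg (Finset.subset_univ _)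
            intro v _ _
            exact sq_nonneg _
    have h2 := h1.trans (variance D hD hq (h := h + m) hh)
    have h3 : (((h + m : ℕ) : ℝ)) * D.card ≤ N * D.card := by
      apply mul_le_mul_of_nonneg_right _ (Nat.cast_nonneg _)
      exact_mod_cast hh
    have h4 : ((W D u h : ℝ) - (h + m) * κ) ^ 2 ≤ N * D.card / m := by
      rw [le_div_iff₀ hmr]
      linarith
    have h5 : (W D u h : ℝ) - (h + m) * κ ≤ Real.sqrt (N * D.card / m) := Real.le_sqrt_of_sq_le h4
    linarith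

/-- initial counts in the reversed window -/
def V {N : ℕ} (D : Finset (ZMod N)) (e : ZMod N) (h : ℕ) : ℕ :=
  ((Icc 1 h).filter (fun i : ℕ => e - (i : ZMod N) ∈ D)).card

theorem V_le_W {N : ℕ} (D : Finset (ZMod N)) (e : ZMod N) (h : ℕ) : V D e h ≤ W D (e - h) h := by
  unfold V W
  apply Finset.card_le_card_of_injOn (fun i => h - i)
  · intro i hi
    have hi' := mem_filter.1 (Finset.mem_coe.1 hi)
    rw [mem_Icc] at hi'
    apply Finset.mem_coe.2
    rw [mem_filter, mem_range]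
    refine ⟨(by change h - i < h; omega), ?_⟩
    rw [Nat.cast_sub hi'.1.2]
    have : e - (h : ZMod N) + ((h : ZMod N) - i) = e - i := by ring
    rw [this]; exact hi'.2
  · intro a ha b hb hab
    have ha' := mem_filter.1 (Finset.mem_coe.1 ha)
    have hb' := mem_filter.1 (Finset.mem_coe.1 hb)
    rw [mem_Icc] at ha' hb'
    simp only at hab
    omega

/-- number of pairs `1 ≤ i ≤ j`, `i + j ≤ H` with `e - i, e - j ∈ D` -/
def pairs {N : ℕ} (D : Finset (ZMod N)) (e : ZMod N) (H : ℕ) : ℕ :=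
  ((Icc 1 H ×ˢ Icc 1 H).filter (fun p : ℕ × ℕ => p.1 ≤ p.2 ∧ p.1 + p.2 ≤ H ∧ e - (p.1 : ZMod N) ∈ D ∧
    e - (p.2 : ZMod N) ∈ D)).card

theorem pairs_le {N : ℕ} (D : Finset (ZMod N)) (e : ZMod N) (H : ℕ) (κ E : ℝ) (hκ : 0 ≤ κ) (hE : 0 ≤ E)
    (hV : ∀ h ≤ H, (V D e h : ℝ) ≤ h * κ + E) :
    (pairs D e H : ℝ) ≤ (κ ^ 2 * H ^ 2 / 2 + 2 * κ * E * H + E ^ 2 + κ * H + E) / 2 := by
  classical
  set X := (Icc 1 H).filter (fun i : ℕ => e - (i : ZMod N) ∈ D) with hX
  have hXcard : (X.card : ℝ) ≤ H * κ + E := hV H le_rfl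
  set O := (X ×ˢ X).filter (fun p : ℕ × ℕ => p.1 + p.2 ≤ H) with hO
  -- pairs ≤ (O + X)/2
  have h1 : 2 * pairs D e H ≤ O.card + X.card := by
    set P := (Icc 1 H ×ˢ Icc 1 H).filter (fun p : ℕ × ℕ => p.1 ≤ p.2 ∧ p.1 + p.2 ≤ H ∧ e - (p.1 : ZMod N) ∈ D ∧
      e - (p.2 : ZMod N) ∈ D) with hP
    have hPO : P = O.filter (fun p => p.1 ≤ p.2) := by
      ext p
      simp only [hP, hO, hX, mem_filter, mem_product]
      tauto
    have hsplit : (O.filter (fun p => p.1 ≤ p.2)).card + (O.filter (fun p => p.2 ≤ p.1)).card ≤ O.card + X.card := by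
      have h2 := Finset.card_union_add_card_inter (O.filter (fun p => p.1 ≤ p.2)) (O.filter (fun p => p.2 ≤ p.1))
      have h3 : (O.filter (fun p => p.1 ≤ p.2) ∪ O.filter (fun p => p.2 ≤ p.1)).card ≤ O.card := by
        apply Finset.card_le_card
        exact Finset.union_subset (filter_subset _ _) (filter_subset _ _)
      have h4 : (O.filter (fun p => p.1 ≤ p.2) ∩ O.filter (fun p => p.2 ≤ p.1)).card ≤ X.card := by
        apply Finset.card_le_card_of_injOn (fun p => p.1)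
        · intro p hp
          have hp' := mem_inter.1 (Finset.mem_coe.1 hp)
          have := (mem_filter.1 hp'.1).1
          rw [hO, mem_filter, mem_product] at this
          exact this.1.1
        · intro p hp r hr h
          have hp' := mem_inter.1 (Finset.mem_coe.1 hp)
          have hr' := mem_inter.1 (Finset.mem_coe.1 hr)
          have a1 := (mem_filter.1 hp'.1).2
          have a2 := (mem_filter.1 hp'.2).2
          have b1 := (mem_filter.1 hr'.1).2
          have b2 := (mem_filter.1 hr'.2).2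
          simp only at h
          ext
          · exact h
          · omega
      omega
    have hsym : (O.filter (fun p => p.2 ≤ p.1)).card = (O.filter (fun p => p.1 ≤ p.2)).card := by
      apply Finset.card_bij (fun p _ => (p.2, p.1))
      · intro p hp
        rw [mem_filter, hO, mem_filter, mem_product] at hp ⊢
        exact ⟨⟨⟨hp.1.1.2, hp.1.1.1⟩, by simpa [add_comm] using hp.1.2⟩, hp.2⟩
      · intro p _ r _ h
        have h' := Prod.ext_iff.1 h
        exact Prod.ext h'.2 h'.1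
      · intro p hp
        refine ⟨(p.2, p.1), ?_, rfl⟩
        rw [mem_filter, hO, mem_filter, mem_product] at hp ⊢
        exact ⟨⟨⟨hp.1.1.2, hp.1.1.1⟩, by simpa [add_comm] using hp.1.2⟩, hp.2⟩
    have : pairs D e H = (O.filter (fun p => p.1 ≤ p.2)).card := by
      unfold pairs
      rw [← hP, hPO]
    omega
  -- bound for O
  have h2 : (O.card : ℝ) ≤ ∑ i ∈ X, (((H - i : ℕ) : ℝ) * κ + E) := by
    have h3 : O.card ≤ ∑ i ∈ X, V D e (H - i) := by
      have : O ⊆ X.biUnion (fun i => (((Icc 1 (H - i)).filter (fun j : ℕ => e - (j : ZMod N) ∈ D)).image (fun j => (i, j)))) := by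
        intro p hp
        rw [hO, mem_filter, mem_product] at hp
        rw [mem_biUnion]
        refine ⟨p.1, hp.1.1, mem_image.2 ⟨p.2, ?_, rfl⟩⟩
        have := hp.1.2
        rw [hX, mem_filter, mem_Icc] at this
        rw [mem_filter, mem_Icc]
        exact ⟨⟨this.1.1, by omega⟩, this.2⟩
      refine (Finset.card_le_card this).trans (Finset.card_biUnion_le.trans ?_)
      apply Finset.sum_le_sum
      intro i _
      exact Finset.card_image_le
    calc (O.card : ℝ) ≤ ∑ i ∈ X, (V D e (H - i) : ℝ) := by exact_mod_cast h3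
      _ ≤ _ := Finset.sum_le_sum fun i _ => hV (H - i) (Nat.sub_le _ _)
  have h4 : ∑ i ∈ X, ((H - i : ℕ) : ℝ) ≤ κ * H ^ 2 / 2 + E * H := by
    have h5 : ∑ i ∈ X, (H - i) = ∑ u ∈ Icc 1 (H - 1), V D e u := by
      have h6 : ∀ i ∈ X, H - i = ((Icc 1 (H - 1)).filter (fun u => i ≤ u)).card := by
        intro i hi
        rw [hX, mem_filter, mem_Icc] at hi
        have : (Icc 1 (H - 1)).filter (fun u => i ≤ u) = Icc i (H - 1) := by
          ext u
          simp only [mem_filter, mem_Icc]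
          omega
        rw [this, Nat.card_Icc]
        omega
      rw [Finset.sum_congr rfl h6]
      simp_rw [Finset.card_filter]
      rw [Finset.sum_comm]
      apply Finset.sum_congr rfl
      intro u hu
      rw [mem_Icc] at hu
      rw [← Finset.card_filter]
      unfold V
      congr 1
      ext i
      simp only [hX, mem_filter, mem_Icc]
      constructor
      · rintro ⟨⟨⟨a, b⟩, c⟩, d⟩; exact ⟨⟨a, d⟩, c⟩
      · rintro ⟨⟨a, b⟩, c⟩; exact ⟨⟨⟨a, by omega⟩, c⟩, b⟩
    have h6 : (∑ i ∈ X, ((H - i : ℕ) : ℝ)) = ∑ u ∈ Icc 1 (H - 1), (V D e u : ℝ) := by exact_mod_cast h5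
    rw [h6]
    calc ∑ u ∈ Icc 1 (H - 1), (V D e u : ℝ) ≤ ∑ u ∈ Icc 1 (H - 1), ((u : ℝ) * κ + E) := by
          apply Finset.sum_le_sum
          intro u hu
          rw [mem_Icc] at hu
          exact hV u (by omega)
      _ = (∑ u ∈ Icc 1 (H - 1), (u : ℝ)) * κ + (Icc 1 (H - 1)).card * E := by
          rw [Finset.sum_add_distrib, Finset.sum_mul, Finset.sum_const, nsmul_eq_mul]
      _ ≤ ((H : ℝ) ^ 2 / 2) * κ + H * E := by
          apply add_le_add
          · apply mul_le_mul_of_nonneg_right _ hκ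
            have h7 : ∀ n : ℕ, (∑ u ∈ Icc 1 n, (u : ℝ)) = n * (n + 1) / 2 := by
              intro n
              induction n with
              | zero => simp
              | succ n ih =>
                rw [Finset.sum_Icc_succ_top (by omega), ih]
                push_cast; ring
            rw [h7]
            rcases Nat.eq_zero_or_pos H with h0 | h0
            · subst h0; simp
            · rw [Nat.cast_sub h0]
              push_cast
              have : (0 : ℝ) ≤ H := Nat.cast_nonneg _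
              nlinarith
          · apply mul_le_mul_of_nonneg_right _ hE
            rw [Nat.card_Icc]
            exact_mod_cast (by omega : H - 1 + 1 - 1 ≤ H)
      _ = _ := by ring
  have h5 : (O.card : ℝ) ≤ κ ^ 2 * H ^ 2 / 2 + 2 * κ * E * H + E ^ 2 := by
    have e1 : ∑ i ∈ X, (((H - i : ℕ) : ℝ) * κ + E) = (∑ i ∈ X, ((H - i : ℕ) : ℝ)) * κ + X.card * E := by
      rw [Finset.sum_add_distrib, Finset.sum_mul, Finset.sum_const, nsmul_eq_mul]
    rw [e1] at h2
    have e2 : (∑ i ∈ X, ((H - i : ℕ) : ℝ)) * κ ≤ (κ * H ^ 2 / 2 + E * H) * κ := mul_le_mul_of_nonneg_right h4 hκ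
    have e3 : (X.card : ℝ) * E ≤ (H * κ + E) * E := mul_le_mul_of_nonneg_right hXcard hE
    nlinarith
  have h6 : (2 : ℝ) * pairs D e H ≤ O.card + X.card := by exact_mod_cast h1
  linarith

/-- the conflicts `x + y = z + a` for the translate by `t` -/
def conf {N : ℕ} (D : Finset (ZMod N)) (l a : ℕ) (t : ZMod N) : Finset (ℕ × ℕ) :=
  (Icc 1 (l + a) ×ˢ Icc 1 (l + a)).filter (fun p : ℕ × ℕ => p.1 ≤ p.2 ∧ p.1 + p.2 ≤ l + a ∧
    (p.1 : ZMod N) - l - t ∈ D ∧ (p.2 : ZMod N) - l - t ∈ D ∧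
    (p.1 : ZMod N) + p.2 - 2 * l - a - t ∈ D)

theorem sum_conf {N : ℕ} [NeZero N] (D : Finset (ZMod N)) (l a : ℕ) :
    ∑ t : ZMod N, (conf D l a t).card ≤ ∑ d ∈ D, pairs D ((l : ZMod N) + a + d) (l + a) := by
  classical
  unfold conf pairs
  simp_rw [Finset.card_filter]
  rw [Finset.sum_comm, Finset.sum_comm (s := D)]
  apply Finset.sum_le_sum
  intro p _
  rw [← Finset.card_filter, ← Finset.card_filter]
  apply Finset.card_le_card_of_injOn (fun t => (p.1 : ZMod N) + p.2 - 2 * l - a - t)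
  · intro t ht
    have ht' := (mem_filter.1 (Finset.mem_coe.1 ht)).2
    apply Finset.mem_coe.2
    rw [mem_filter]
    refine ⟨ht'.2.2.2.2, ht'.1, ht'.2.1, ?_, ?_⟩
    · have : (l : ZMod N) + a + ((p.1 : ZMod N) + p.2 - 2 * l - a - t) - p.1 = (p.2 : ZMod N) - l - t := by ring
      change (l : ZMod N) + a + ((p.1 : ZMod N) + p.2 - 2 * l - a - t) - p.1 ∈ D
      rw [this]; exact ht'.2.2.2.1
    · have : (l : ZMod N) + a + ((p.1 : ZMod N) + p.2 - 2 * l - a - t) - p.2 = (p.1 : ZMod N) - l - t := by ring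
      change (l : ZMod N) + a + ((p.1 : ZMod N) + p.2 - 2 * l - a - t) - p.2 ∈ D
      rw [this]; exact ht'.2.2.1
  · intro t _ t' _ h
    exact sub_right_injective h

/-- Sidon sets of natural numbers -/
def NSidon (B : Finset ℕ) : Prop :=
  ∀ a ∈ B, ∀ b ∈ B, ∀ c ∈ B, ∀ d ∈ B, a + b = c + d → (a = c ∧ b = d) ∨ (a = d ∧ b = c)

theorem sidon_of_sorted {B : Finset ℕ}
    (h : ∀ a ∈ B, ∀ b ∈ B, ∀ c ∈ B, ∀ d ∈ B, a ≤ b → c ≤ d → a + b = c + d → b = d) : NSidon B := by
  intro a ha b hb c hc d hd hs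
  rcases le_total a b with h1 | h1 <;> rcases le_total c d with h2 | h2
  · have := h a ha b hb c hc d hd h1 h2 hs; omega
  · have := h a ha b hb d hd c hc h1 h2 (by omega); omega
  · have := h b hb a ha c hc d hd h1 h2 (by omega); omega
  · have := h b hb a ha d hd c hc h1 h2 (by omega); omega

theorem build {N : ℕ} [NeZero N] (D : Finset (ZMod N)) (hD : MSidon D) (t : ZMod N) (l : ℕ) (A : Finset ℕ)
    (α : ℕ) (hα : ∀ a ∈ A, a ≤ α) (hA0 : 0 ∉ A) (hAS : NSidon A) (hl : l ≤ N) (hN : 2 * α + l < N) :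
    ∃ B : Finset ℕ, A ⊆ B ∧ 0 ∉ B ∧ NSidon B ∧ (∀ b ∈ B, b ∉ A → ∀ a ∈ A, a < b) ∧
      (∀ b ∈ B, b + l ≤ 2 * N) ∧ D.card ≤ B.card + ∑ a ∈ A, (conf D l a t).card + A.card ^ 2 := by
  classical
  set S := (Ioc (N - l) (2 * N - l)).filter (fun x : ℕ => (x : ZMod N) - t ∈ D) with hS
  have hmemS : ∀ x, x ∈ S ↔ (N < x + l ∧ x + l ≤ 2 * N) ∧ (x : ZMod N) - t ∈ D := by
    intro x
    rw [hS, mem_filter, mem_Ioc]
    constructor
    · rintro ⟨⟨a, b⟩, c⟩; exact ⟨⟨by omega, by omega⟩, c⟩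
    · rintro ⟨⟨a, b⟩, c⟩; exact ⟨⟨by omega, by omega⟩, c⟩
  -- congruent elements of the interval are equal
  have hcong : ∀ x y : ℕ, (N < x + l ∧ x + l ≤ 2 * N) → (N < y + l ∧ y + l ≤ 2 * N) →
      (x : ZMod N) = (y : ZMod N) → x = y := by
    intro x y hx hy h
    have h1 : ((x + l - N - 1 : ℕ) : ZMod N) = ((y + l - N - 1 : ℕ) : ZMod N) := by
      have e1 : ((x + l - N - 1 : ℕ) : ZMod N) = (x : ZMod N) + l - 1 := by
        have : x + l = (x + l - N - 1) + N + 1 := by omega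
        have h2 := congrArg (Nat.cast : ℕ → ZMod N) this
        push_cast at h2
        rw [ZMod.natCast_self] at h2
        rw [h2]; ring
      have e2 : ((y + l - N - 1 : ℕ) : ZMod N) = (y : ZMod N) + l - 1 := by
        have : y + l = (y + l - N - 1) + N + 1 := by omega
        have h2 := congrArg (Nat.cast : ℕ → ZMod N) this
        push_cast at h2
        rw [ZMod.natCast_self] at h2
        rw [h2]; ring
      rw [e1, e2, h]
    have := cast_inj_lt (by omega) (by omega) h1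
    omega
  have hcard : D.card ≤ S.card := by
    apply Finset.card_le_card_of_injOn (fun d : ZMod N => N - l + 1 + (d + t - ((N - l + 1 : ℕ) : ZMod N)).val)
    · intro d hd
      apply Finset.mem_coe.2
      change N - l + 1 + (d + t - ((N - l + 1 : ℕ) : ZMod N)).val ∈ S
      rw [hmemS]
      have hlt := ZMod.val_lt (d + t - ((N - l + 1 : ℕ) : ZMod N))
      refine ⟨⟨by omega, by omega⟩, ?_⟩
      rw [Nat.cast_add, ZMod.natCast_zmod_val]
      have : ((N - l + 1 : ℕ) : ZMod N) + (d + t - ((N - l + 1 : ℕ) : ZMod N)) - t = d := by ring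
      rw [this]; exact hd
    · intro d _ d' _ h
      have h1 : (d + t - ((N - l + 1 : ℕ) : ZMod N)).val = (d' + t - ((N - l + 1 : ℕ) : ZMod N)).val := by
        have : N - l + 1 + (d + t - ((N - l + 1 : ℕ) : ZMod N)).val = N - l + 1 + (d' + t - ((N - l + 1 : ℕ) : ZMod N)).val := h
        omega
      have h2 := ZMod.val_injective N h1
      exact add_right_cancel (sub_left_injective h2)
  have hSS : ∀ x ∈ S, ∀ y ∈ S, ∀ z ∈ S, ∀ w ∈ S, x + y = z + w → (x = z ∧ y = w) ∨ (x = w ∧ y = z) := by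
    intro x hx y hy z hz w hw h
    rw [hmemS] at hx hy hz hw
    have h1 : ((x : ZMod N) - t) + ((y : ZMod N) - t) = ((z : ZMod N) - t) + ((w : ZMod N) - t) := by
      have h2 := congrArg (Nat.cast : ℕ → ZMod N) h
      push_cast at h2
      linear_combination h2
    rcases hD _ hx.2 _ hy.2 _ hz.2 _ hw.2 h1 with h2 | h2
    · left
      exact ⟨hcong _ _ hx.1 hz.1 (sub_left_injective h2.1), hcong _ _ hy.1 hw.1 (sub_left_injective h2.2)⟩
    · right
      exact ⟨hcong _ _ hx.1 hw.1 (sub_left_injective h2.1), hcong _ _ hy.1 hz.1 (sub_left_injective h2.2)⟩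
  set R1 := A.biUnion (fun a => (conf D l a t).image (fun p : ℕ × ℕ => N - l + p.2)) with hR1
  set R2 := (A ×ˢ A).biUnion (fun p : ℕ × ℕ => S.filter (fun y => ∃ x ∈ S, p.2 < p.1 ∧ y + p.2 = x + p.1)) with hR2
  have hR1c : R1.card ≤ ∑ a ∈ A, (conf D l a t).card := by
    refine Finset.card_biUnion_le.trans (Finset.sum_le_sum fun a _ => Finset.card_image_le)
  have hR2c : R2.card ≤ A.card ^ 2 := by
    refine Finset.card_biUnion_le.trans ?_
    rw [pow_two, ← Finset.card_product]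
    calc ∑ p ∈ A ×ˢ A, (S.filter (fun y => ∃ x ∈ S, p.2 < p.1 ∧ y + p.2 = x + p.1)).card ≤ ∑ _p ∈ A ×ˢ A, 1 := by
          apply Finset.sum_le_sum
          intro p hp
          rw [mem_product] at hp
          rw [Finset.card_le_one]
          intro y hy y' hy'
          obtain ⟨hyS, x, hx, hlt, he⟩ := mem_filter.1 hy
          obtain ⟨hyS', x', hx', _, he'⟩ := mem_filter.1 hy'
          rcases hSS y hyS x' hx' y' hyS' x hx (by omega) with h1 | h1
          · exact h1.1
          · exfalso; omega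
      _ = _ := by rw [Finset.sum_const, smul_eq_mul, mul_one]
  refine ⟨A ∪ (S \ (R1 ∪ R2)), subset_union_left, ?_, ?_, ?_, ?_, ?_⟩
  · rw [mem_union, mem_sdiff, hmemS]
    push Not
    refine ⟨hA0, fun h => ?_⟩
    omega
  · apply sidon_of_sorted
    have hAle : ∀ x ∈ A, ∀ y ∈ S, x < y ∧ 2 * x < y := by
      intro x hx y hy
      have h1 := hα x hx
      have h2 := ((hmemS y).1 hy).1
      constructor <;> omega
    have hSbig : ∀ y ∈ S, 2 * α < y := by
      intro y hy
      have h2 := ((hmemS y).1 hy).1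
      omega
    -- conflicts
    have hconf : ∀ x ∈ S, ∀ y ∈ S, ∀ a ∈ A, ∀ z ∈ S, x ≤ y → x + y = a + z → y ∈ R1 := by
      intro x hx y hy a ha z hz hxy h
      have hx' := (hmemS x).1 hx
      have hy' := (hmemS y).1 hy
      have hz' := (hmemS z).1 hz
      rw [hR1, mem_biUnion]
      refine ⟨a, ha, mem_image.2 ⟨(x + l - N, y + l - N), ?_, by simp only; omega⟩⟩
      have cx : ((x + l - N : ℕ) : ZMod N) = (x : ZMod N) + l := by
        have : x + l = (x + l - N) + N := by omega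
        have h2 := congrArg (Nat.cast : ℕ → ZMod N) this
        push_cast at h2
        rw [ZMod.natCast_self, add_zero] at h2
        exact h2.symm
      have cy : ((y + l - N : ℕ) : ZMod N) = (y : ZMod N) + l := by
        have : y + l = (y + l - N) + N := by omega
        have h2 := congrArg (Nat.cast : ℕ → ZMod N) this
        push_cast at h2
        rw [ZMod.natCast_self, add_zero] at h2
        exact h2.symm
      unfold conf
      rw [mem_filter, mem_product, mem_Icc, mem_Icc]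
      simp only
      rw [cx, cy]
      refine ⟨⟨⟨by omega, by omega⟩, ⟨by omega, by omega⟩⟩, by omega, by omega, ?_, ?_, ?_⟩
      · have : (x : ZMod N) + l - l - t = (x : ZMod N) - t := by ring
        rw [this]; exact hx'.2
      · have : (y : ZMod N) + l - l - t = (y : ZMod N) - t := by ring
        rw [this]; exact hy'.2
      · have h2 := congrArg (Nat.cast : ℕ → ZMod N) h
        push_cast at h2
        have : (x : ZMod N) + l + ((y : ZMod N) + l) - 2 * l - a - t = (z : ZMod N) - t := by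
          linear_combination h2
        rw [this]; exact hz'.2
    have hdiff : ∀ a ∈ A, ∀ c ∈ A, ∀ b ∈ S, ∀ d ∈ S, a + b = c + d → b < d → d ∈ R2 := by
      intro a ha c hc b hb d hd h hlt
      rw [hR2, mem_biUnion]
      exact ⟨(a, c), mem_product.2 ⟨ha, hc⟩, mem_filter.2 ⟨hd, b, hb, by simp only; omega, by simp only; omega⟩⟩
    intro a ha b hb c hc d hd hab hcd h
    rw [mem_union, mem_sdiff, mem_union] at ha hb hc hd
    push Not at ha hb hc hd
    rcases ha with ha | ⟨ha, haR⟩ <;> rcases hb with hb | ⟨hb, hbR⟩ <;> rcases hc with hc | ⟨hc, hcR⟩ <;>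
      rcases hd with hd | ⟨hd, hdR⟩
    · rcases hAS a ha b hb c hc d hd h with h1 | h1 <;> omega
    · have := hSbig d hd; have := hα a ha; have := hα b hb; omega
    · have := hSbig c hc; have := hα a ha; have := hα b hb; omega
    · have := hSbig d hd; have := hα a ha; have := hα b hb; omega
    · have := hSbig b hb; have := hα c hc; have := hα d hd; omega
    · -- (A,S) = (A,S)
      by_contra hne
      rcases Nat.lt_or_gt_of_ne hne with h1 | h1
      · exact hdR.2 (hdiff a ha c hc b hb d hd h h1)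
      · exact hbR.2 (hdiff c hc a ha d hd b hb h.symm h1)
    · have := (hAle d hd c hc).1; omega
    · exact absurd (hconf c hc d hd a ha b hb hcd h.symm) hdR.1
    · have := (hAle b hb a ha).1; omega
    · have := (hAle b hb a ha).1; omega
    · have := (hAle b hb a ha).1; omega
    · have := (hAle b hb a ha).1; omega
    · have := hSbig a ha; have := hα c hc; have := hα d hd; omega
    · exact absurd (hconf a ha b hb c hc d hd hab h) hbR.1
    · have := (hAle d hd c hc).1; omega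
    · rcases hSS a ha b hb c hc d hd h with h1 | h1 <;> omega
  · intro b hb hbA a ha
    rw [mem_union, mem_sdiff, hmemS] at hb
    rcases hb with hb | hb
    · exact absurd hb hbA
    · have := hα a ha
      omega
  · intro b hb
    rw [mem_union, mem_sdiff, hmemS] at hb
    rcases hb with hb | hb
    · have := hα b hb
      omega
    · exact hb.1.1.2
  · have h1 : S ⊆ (A ∪ (S \ (R1 ∪ R2))) ∪ (R1 ∪ R2) := by
      intro x hx
      by_cases h : x ∈ R1 ∪ R2
      · exact mem_union_right _ h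
      · exact mem_union_left _ (mem_union_right _ (mem_sdiff.2 ⟨hx, h⟩))
    have h2 := Finset.card_le_card h1
    have h3 := Finset.card_union_le (A ∪ (S \ (R1 ∪ R2))) (R1 ∪ R2)
    have h4 := Finset.card_union_le R1 R2
    omega

theorem aux_F (x η i : ℝ) (hx : 0 < x) (hη0 : 0 < η) (hη1 : η ≤ 1 / 2048) (hi : i ≤ 1 / 2)
    (hxη : 4 ≤ x * η) :
    ((x * (i + η)) ^ 2 / 2 + 2 * (x * (i + η)) * (2 * η * x) + (2 * η * x) ^ 2 + x * (i + η) + 2 * η * x) / 2
      ≤ x ^ 2 * (i ^ 2 / 4 + 2 * η) := by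
  have e1 : x ^ 2 * (i ^ 2 / 4 + 2 * η) - ((x * (i + η)) ^ 2 / 2 + 2 * (x * (i + η)) * (2 * η * x) + (2 * η * x) ^ 2 +
        x * (i + η) + 2 * η * x) / 2 = x ^ 2 * η * (2 - 5 / 2 * i - 17 / 4 * η) - x * (i + 3 * η) / 2 := by ring
  have h1 : x * (i + 3 * η) ≤ x * (x * η) := mul_le_mul_of_nonneg_left (by linarith) hx.le
  have h2 : x ^ 2 * η * (1 / 2) ≤ x ^ 2 * η * (2 - 5 / 2 * i - 17 / 4 * η) :=
    mul_le_mul_of_nonneg_left (by linarith) (by positivity)
  have h3 : x * (x * η) = x ^ 2 * η := by ring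
  linarith

theorem aux_N (x η Nr : ℝ) (hx : 16 ≤ x) (hη0 : 0 < η) (hN : Nr = x ^ 2 - 1) (hxη : 4 ≤ x * η) :
    x ^ 2 ≤ (1 + η) * Nr := by
  have h1 : (1 + η) * Nr = x ^ 2 + ((x * η) * x - 1 - η) := by rw [hN]; ring
  rw [h1]
  have h2 : 4 * x ≤ (x * η) * x := mul_le_mul_of_nonneg_right hxη (by linarith)
  have h3 : η * 16 ≤ (x * η) * x := by
    have : x * η * 1 ≤ (x * η) * x := mul_le_mul_of_nonneg_left (by linarith) (by positivity)
    have h4 : 16 * η ≤ x * η := mul_le_mul_of_nonneg_right hx hη0.le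
    linarith
  linarith

theorem aux_u (u η : ℝ) (hu0 : 0 < u) (hu1 : u ≤ 1 / 16) (hη0 : 0 < η) (hη : η ≤ u ^ 2 / 8) :
    (u + 2 * (u ^ 2 / 8)) * (1 + η) ≤ u + u ^ 2 / 2 := by
  have h1 : (u + 2 * (u ^ 2 / 8)) * (1 + η) = u + u ^ 2 / 4 + (u + u ^ 2 / 4) * η := by ring
  rw [h1]
  have h2 : (u + u ^ 2 / 4) * η ≤ 1 * η := mul_le_mul_of_nonneg_right (by nlinarith) hη0.le
  linarith [sq_nonneg u]

theorem aux_K (K x η : ℝ) (hK : 1 ≤ K) (hη : η = 1 / (2048 * K ^ 3)) (hxη : 4 ≤ x * η ^ 3) :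
    512 * K ^ 4 ≤ x := by
  have hK0 : 0 < K := by linarith
  have h6 : x * η ^ 3 * (2048 * K ^ 3) ^ 3 = x := by
    rw [hη]; field_simp
  have h7 : 4 * (2048 * K ^ 3) ^ 3 ≤ x := by
    calc 4 * (2048 * K ^ 3) ^ 3 ≤ x * η ^ 3 * (2048 * K ^ 3) ^ 3 := mul_le_mul_of_nonneg_right hxη (by positivity)
      _ = x := h6
  have h8 : K ^ 4 ≤ K ^ 9 := pow_le_pow_right₀ hK (by norm_num)
  have h9 : 4 * (2048 * K ^ 3) ^ 3 = 4 * 2048 ^ 3 * K ^ 9 := by ring
  rw [h9] at h7
  have h10 : (512 : ℝ) * K ^ 4 ≤ 512 * K ^ 9 := by linarith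
  have h11 : (0 : ℝ) < K ^ 9 := by positivity
  have h12 : (512 : ℝ) * K ^ 9 ≤ 4 * 2048 ^ 3 * K ^ 9 := by
    apply mul_le_mul_of_nonneg_right _ h11.le; norm_num
  linarith

theorem aux_fin (x u n b Nr L : ℝ) (hx : 0 < x) (hu0 : 0 < u) (hu1 : u ≤ 1 / 16)
    (hN : Nr = x ^ 2 - 1) (hxu : 1 ≤ x ^ 2 * u ^ 2) (hn : x * (1 - u - u ^ 2) ≤ n)
    (hb : b + L ≤ 2 * Nr) (hL : 8 * u * Nr - 1 ≤ L) : b ≤ (2 - 4 * u) * n ^ 2 := by
  have h2 : b ≤ (2 - 8 * u) * x ^ 2 + 1 := by
    have h1 : b ≤ (2 - 8 * u) * Nr + 1 := by linarith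
    have h3 : (2 - 8 * u) * Nr ≤ (2 - 8 * u) * x ^ 2 := by
      apply mul_le_mul_of_nonneg_left _ (by linarith)
      rw [hN]; linarith
    linarith
  have hu2 : u ^ 2 ≤ 1 / 16 * u := by
    rw [pow_two]; exact mul_le_mul_of_nonneg_right hu1 hu0.le
  have h3 : (x * (1 - u - u ^ 2)) ^ 2 ≤ n ^ 2 := by
    apply pow_le_pow_left₀ _ hn
    apply mul_nonneg hx.le
    linarith
  have h4 : (2 - 4 * u) * (x * (1 - u - u ^ 2)) ^ 2 ≤ (2 - 4 * u) * n ^ 2 :=
    mul_le_mul_of_nonneg_left h3 (by linarith)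
  have e5 : (2 - 4 * u) * (x * (1 - u - u ^ 2)) ^ 2 =
      x ^ 2 * (2 - 8 * u) + x ^ 2 * u ^ 2 * (6 + 8 * u - 6 * u ^ 2 - 4 * u ^ 3) := by ring
  have hu3 : u ^ 3 ≤ u ^ 2 := by
    have : u ^ 3 = u ^ 2 * u := by ring
    rw [this]
    calc u ^ 2 * u ≤ u ^ 2 * 1 := mul_le_mul_of_nonneg_left (by linarith) (by positivity)
      _ = u ^ 2 := mul_one _
  have h6 : (1 : ℝ) ≤ 6 + 8 * u - 6 * u ^ 2 - 4 * u ^ 3 := by linarith
  have h7 : x ^ 2 * u ^ 2 * 1 ≤ x ^ 2 * u ^ 2 * (6 + 8 * u - 6 * u ^ 2 - 4 * u ^ 3) :=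
    mul_le_mul_of_nonneg_left h6 (by positivity)
  rw [e5] at h4
  linarith

set_option maxHeartbeats 4000000 in
theorem main (A : Finset ℕ) (hne : A.Nonempty) (hA0 : 0 ∉ A) (hAS : NSidon A) (N0 : ℕ) :
    ∃ B : Finset ℕ, A ⊆ B ∧ 0 ∉ B ∧ NSidon B ∧ (∀ b ∈ B, b ∉ A → ∀ a ∈ A, a < b) ∧ N0 ≤ B.card ∧
      ∀ b ∈ B, (b : ℝ) ≤ (2 - 1 / (4 * A.card)) * (B.card : ℝ) ^ 2 := by
  classical
  set k := A.card with hk
  have hk1 : 1 ≤ k := hne.card_pos
  set K : ℝ := (k : ℝ) with hK
  have hK1 : (1 : ℝ) ≤ K := by rw [hK]; exact_mod_cast hk1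
  have hK0 : (0 : ℝ) < K := by linarith
  set α := A.sup id with hα
  have hαle : ∀ a ∈ A, a ≤ α := fun a ha => Finset.le_sup (f := id) ha
  set η : ℝ := 1 / (2048 * K ^ 3) with hη
  have hη0 : 0 < η := by positivity
  have hηK : η * K ^ 3 = 1 / 2048 := by rw [hη]; field_simp
  have hK3 : K ≤ K ^ 3 := le_self_pow₀ hK1 (by norm_num)
  have hKη : K * η ≤ 1 / 2048 := by
    calc K * η ≤ K ^ 3 * η := mul_le_mul_of_nonneg_right hK3 hη0.le
      _ = 1 / 2048 := by rw [mul_comm]; exact hηK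
  have hηKη : η ≤ K * η := by
    calc η = 1 * η := (one_mul _).symm
      _ ≤ K * η := mul_le_mul_of_nonneg_right hK1 hη0.le
  have hη1 : η ≤ 1 / 2048 := hηKη.trans hKη
  set u : ℝ := 1 / (16 * K) with hu
  have hu0 : 0 < u := by positivity
  have hu1 : u ≤ 1 / 16 := by
    rw [hu]; apply one_div_le_one_div_of_le <;> linarith
  have huK : u * K = 1 / 16 := by rw [hu]; field_simp
  have huη : K * η = u ^ 2 / 8 := by
    rw [hη, hu]; field_simp; norm_num
  -- choice of the prime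
  obtain ⟨q, hqge, hqp⟩ := Nat.exists_infinite_primes (⌈4 / η ^ 3⌉₊ + 8 * α + 2 * N0 + 16)
  set x : ℝ := (q : ℝ) with hx
  have hx1 : 4 / η ^ 3 + 8 * (α : ℝ) + 2 * (N0 : ℝ) + 16 ≤ x := by
    have h1 : ((⌈4 / η ^ 3⌉₊ + 8 * α + 2 * N0 + 16 : ℕ) : ℝ) ≤ x := by rw [hx]; exact_mod_cast hqge
    push_cast at h1
    have := Nat.le_ceil (4 / η ^ 3)
    linarith
  have hα0 : (0 : ℝ) ≤ α := Nat.cast_nonneg _
  have hN00 : (0 : ℝ) ≤ N0 := Nat.cast_nonneg _
  have hη3 : 0 < η ^ 3 := by positivity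
  have hxη : 4 ≤ x * η ^ 3 := by
    have : 4 / η ^ 3 ≤ x := by linarith
    rw [div_le_iff₀ hη3] at this
    exact this
  have hx16 : 16 ≤ x := by
    have : 0 < 4 / η ^ 3 := by positivity
    linarith
  have hx0 : 0 < x := by linarith
  have hxη1 : 4 ≤ x * η := by
    have : x * η ^ 3 ≤ x * η := by
      apply mul_le_mul_of_nonneg_left _ hx0.le
      exact pow_le_of_le_one hη0.le (by linarith) (by norm_num)
    linarith
  obtain ⟨N, hN⟩ : ∃ N : ℕ, N = q ^ 2 - 1 := ⟨_, rfl⟩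
  obtain ⟨D, hDc, hDs⟩ : ∃ D : Finset (ZMod N), D.card = q ∧
    ∀ a ∈ D, ∀ b ∈ D, ∀ c ∈ D, ∀ d ∈ D, a + b = c + d → (a = c ∧ b = d) ∨ (a = d ∧ b = c) := by
    rw [hN]; exact exists_mod_sidon q hqp
  have hq16 : 16 ≤ q := by omega
  have hqq : 16 * q ≤ q ^ 2 := by rw [pow_two]; exact Nat.mul_le_mul_right q hq16
  have hNq : N + 1 = q ^ 2 := by omega
  have hNpos : 0 < N := by omega
  have : NeZero N := ⟨hNpos.ne'⟩
  have hDs' : MSidon D := hDs
  have hNr : (N : ℝ) = x ^ 2 - 1 := by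
    have : ((N + 1 : ℕ) : ℝ) = ((q ^ 2 : ℕ) : ℝ) := by rw [hNq]
    push_cast at this
    rw [hx]; linarith
  have hNr0 : (0 : ℝ) < N := by exact_mod_cast hNpos
  have hxx : 16 * x ≤ x ^ 2 := by rw [pow_two]; exact mul_le_mul_of_nonneg_right hx16 hx0.le
  have hxN : x ≤ N := by rw [hNr]; linarith
  set l := N / (2 * k) with hl
  have hlN : l ≤ N / 2 := by
    rw [hl]; apply Nat.div_le_div_left <;> omega
  have hlr : (l : ℝ) ≤ N / (2 * K) := by
    have := Nat.cast_div_le (α := ℝ) (m := N) (n := 2 * k)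
    push_cast at this
    rw [hl]; exact this
  have hlr2 : (N : ℝ) / (2 * K) - 1 ≤ l := by
    have h1 : N < 2 * k * (l + 1) := by rw [hl]; exact Nat.lt_mul_div_succ N (by omega)
    have h2 : (N : ℝ) < 2 * K * (l + 1) := by rw [hK]; exact_mod_cast h1
    have h3 : (N : ℝ) / (2 * K) < l + 1 := by
      rw [div_lt_iff₀ (by positivity)]; linarith
    linarith
  set m := ⌈η * N⌉₊ with hm
  have hm1 : η * N ≤ m := Nat.le_ceil _
  have hm2 : (m : ℝ) < η * N + 1 := Nat.ceil_lt_add_one (by positivity)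
  have hm0 : 0 < m := by
    rw [hm, Nat.ceil_pos]; positivity
  have hmr0 : (0 : ℝ) < m := by exact_mod_cast hm0
  have hαq : 8 * α + 16 ≤ q := by omega
  set κ : ℝ := (D.card : ℝ) / N with hκ
  have hκ' : κ = x / N := by rw [hκ, hDc]
  have hκ0 : 0 ≤ κ := by rw [hκ']; positivity
  have hκN : κ * N = x := by rw [hκ']; field_simp
  have hκ1 : κ ≤ 1 := by rw [hκ', div_le_one hNr0]; exact hxN
  set E0 : ℝ := m * κ + Real.sqrt (N * D.card / m) with hE0
  have hE00 : 0 ≤ E0 := by positivity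
  have hE : E0 ≤ 2 * η * x := by
    have h1 : (m : ℝ) * κ ≤ η * x + 1 := by
      have : (m : ℝ) * κ ≤ (η * N + 1) * κ := mul_le_mul_of_nonneg_right hm2.le hκ0
      have e : (η * N + 1) * κ = η * (κ * N) + κ := by ring
      rw [e, hκN] at this
      linarith
    have h2 : Real.sqrt (N * D.card / m) ≤ η * x / 2 := by
      rw [Real.sqrt_le_left (by positivity), div_le_iff₀ hmr0, hDc]
      have h3 : (N : ℝ) * x ≤ (η * x / 2) ^ 2 * (η * N) := by
        have e : (η * x / 2) ^ 2 * (η * N) = (x * η ^ 3) * (N * x) / 4 := by ring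
        rw [e]
        have h0 : 0 ≤ (N : ℝ) * x := by positivity
        have h1 := mul_le_mul_of_nonneg_right hxη h0
        linarith
      have h4 : (η * x / 2) ^ 2 * (η * N) ≤ (η * x / 2) ^ 2 * m := mul_le_mul_of_nonneg_left hm1 (by positivity)
      linarith
    rw [hE0]
    linarith
  have hHm : ∀ a ∈ A, l + a + m ≤ N := by
    intro a ha
    have ha' := hαle a ha
    have h1 : (m : ℝ) < N / 8 := by
      have h5 : η * N ≤ 1 / 2048 * N := mul_le_mul_of_nonneg_right hη1 hNr0.le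
      have h6 : (16 : ℝ) ≤ N := by linarith
      linarith
    have h2 : (m : ℝ) * 8 < N := by linarith
    have h3 : m * 8 < N := by exact_mod_cast h2
    omega
  have hκH : ∀ a ∈ A, κ * ((l + a : ℕ) : ℝ) ≤ x * (1 / (2 * K) + η) := by
    intro a ha
    have ha' : (a : ℝ) ≤ α := by exact_mod_cast hαle a ha
    have h1 : (α : ℝ) ≤ η * N := by
      have : (α : ℝ) ≤ x := by linarith [show 0 < 4 / η ^ 3 by positivity]
      have h2 : x ≤ η * N := by
        have e : η * N = (x * η) * x - η := by rw [hNr]; ring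
        have h5 : 4 * x ≤ (x * η) * x := mul_le_mul_of_nonneg_right hxη1 hx0.le
        rw [e]; linarith
      linarith
    have h2 : ((l + a : ℕ) : ℝ) ≤ N * (1 / (2 * K) + η) := by
      push_cast
      have : (N : ℝ) * (1 / (2 * K) + η) = N / (2 * K) + η * N := by ring
      rw [this]; linarith
    calc κ * ((l + a : ℕ) : ℝ) ≤ κ * (N * (1 / (2 * K) + η)) := mul_le_mul_of_nonneg_left h2 hκ0
      _ = (κ * N) * (1 / (2 * K) + η) := by ring
      _ = _ := by rw [hκN]
  set P1 : ℝ := x * (1 / (2 * K) + η) with hP1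
  have hP10 : 0 ≤ P1 := by positivity
  set F : ℝ := (P1 ^ 2 / 2 + 2 * P1 * (2 * η * x) + (2 * η * x) ^ 2 + P1 + 2 * η * x) / 2 with hF
  have hpairs : ∀ a ∈ A, ∀ e : ZMod N, (pairs D e (l + a) : ℝ) ≤ F := by
    intro a ha e
    have h1 := pairs_le D e (l + a) κ E0 hκ0 hE00 (by
      intro h hh
      have h2 : (V D e h : ℝ) ≤ W D (e - h) h := by exact_mod_cast V_le_W D e h
      have h3 := W_le D hDs' (by rw [hDc]; omega) (e - h) (h := h) (m := m) hm0 (by
        have := hHm a ha; omega)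
      linarith)
    have hH0 : 0 ≤ κ * ((l + a : ℕ) : ℝ) := by positivity
    have h2 := hκH a ha
    refine h1.trans ?_
    rw [hF]
    have e1 : κ ^ 2 * ((l + a : ℕ) : ℝ) ^ 2 / 2 = (κ * ((l + a : ℕ) : ℝ)) ^ 2 / 2 := by ring
    have e2 : 2 * κ * E0 * ((l + a : ℕ) : ℝ) = 2 * (κ * ((l + a : ℕ) : ℝ)) * E0 := by ring
    rw [e1, e2]
    set Y := κ * ((l + a : ℕ) : ℝ) with hY
    have g1 : Y ^ 2 ≤ P1 ^ 2 := pow_le_pow_left₀ hH0 h2 2
    have g2 : Y * E0 ≤ P1 * (2 * η * x) := mul_le_mul h2 hE hE00 hP10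
    have g3 : E0 ^ 2 ≤ (2 * η * x) ^ 2 := pow_le_pow_left₀ hE00 hE 2
    linarith
  -- averaging
  obtain ⟨t, ht⟩ : ∃ t : ZMod N, (N : ℝ) * (∑ a ∈ A, ((conf D l a t).card : ℝ)) ≤ K * x * F := by
    by_contra hcon
    push Not at hcon
    have h1 : ∑ t : ZMod N, (K * x * F) < ∑ t : ZMod N, (N : ℝ) * (∑ a ∈ A, ((conf D l a t).card : ℝ)) :=
      Finset.sum_lt_sum_of_nonempty ⟨0, mem_univ _⟩ fun t _ => hcon t
    rw [Finset.sum_const, card_univ, ZMod.card, nsmul_eq_mul, ← Finset.mul_sum, Finset.sum_comm] at h1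
    have h2 : ∑ a ∈ A, ∑ t : ZMod N, ((conf D l a t).card : ℝ) ≤ K * x * F := by
      calc ∑ a ∈ A, ∑ t : ZMod N, ((conf D l a t).card : ℝ) ≤ ∑ _a ∈ A, x * F := by
            apply Finset.sum_le_sum
            intro a ha
            have h3 : (∑ t : ZMod N, ((conf D l a t).card : ℝ)) ≤ ∑ d ∈ D, (pairs D ((l : ZMod N) + a + d) (l + a) : ℝ) := by
              exact_mod_cast sum_conf D l a
            refine h3.trans ?_
            calc ∑ d ∈ D, (pairs D ((l : ZMod N) + a + d) (l + a) : ℝ) ≤ ∑ _d ∈ D, F :=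
                  Finset.sum_le_sum fun d _ => hpairs a ha _
              _ = x * F := by rw [Finset.sum_const, nsmul_eq_mul, hDc]
        _ = K * x * F := by rw [Finset.sum_const, nsmul_eq_mul, ← hk]; ring
    have := mul_le_mul_of_nonneg_left h2 hNr0.le
    linarith
  obtain ⟨B, hAB, hB0, hBS, hBA, hBN, hBc⟩ := build D hDs' t l A α hαle hA0 hAS (by omega) (by omega)
  set n : ℝ := (B.card : ℝ) with hn
  -- F bound
  have hi : 1 / (2 * K) ≤ 1 / 2 := by apply one_div_le_one_div_of_le <;> linarith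
  have hFb : F ≤ x ^ 2 * ((1 / (2 * K)) ^ 2 / 4 + 2 * η) := by
    rw [hF, hP1]
    exact aux_F x η (1 / (2 * K)) hx0 hη0 hη1 hi hxη1
  have hη2 : η ≤ u ^ 2 / 8 := by rw [← huη]; exact hηKη
  have hconfb : (∑ a ∈ A, ((conf D l a t).card : ℝ)) + K ^ 2 ≤ x * (u + u ^ 2) := by
    have h1 : (∑ a ∈ A, ((conf D l a t).card : ℝ)) ≤ K * x * F / N := by
      rw [le_div_iff₀ hNr0]; linarith
    have h2 : K * x * F / N ≤ x * ((u + 2 * (u ^ 2 / 8)) * (1 + η)) := by
      rw [div_le_iff₀ hNr0]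
      have h3 : K * x * F ≤ K * x * (x ^ 2 * ((1 / (2 * K)) ^ 2 / 4 + 2 * η)) :=
        mul_le_mul_of_nonneg_left hFb (by positivity)
      have e1 : K * x * (x ^ 2 * ((1 / (2 * K)) ^ 2 / 4 + 2 * η)) = x * (u + 2 * (K * η)) * x ^ 2 := by
        rw [hu]; field_simp; ring
      have h4 : x ^ 2 ≤ (1 + η) * N := aux_N x η N hx16 hη0 hNr hxη1
      have h5 : x * (u + 2 * (K * η)) * x ^ 2 ≤ x * (u + 2 * (K * η)) * ((1 + η) * N) :=
        mul_le_mul_of_nonneg_left h4 (by positivity)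
      calc K * x * F ≤ _ := h3
        _ = _ := e1
        _ ≤ _ := h5
        _ = _ := by rw [huη]; ring
    have h3 := aux_u u η hu0 hu1 hη0 hη2
    have h4 : K ^ 2 ≤ x * (u ^ 2 / 2) := by
      have e1 : u ^ 2 * K ^ 2 = 1 / 256 := by
        have : u ^ 2 * K ^ 2 = (u * K) ^ 2 := by ring
        rw [this, huK]; norm_num
      have h5 := aux_K K x η hK1 hη hxη
      have h10 : K ^ 2 = 512 * K ^ 4 * (u ^ 2 / 2) := by
        have : 512 * K ^ 4 * (u ^ 2 / 2) = 256 * K ^ 2 * (u ^ 2 * K ^ 2) := by ring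
        rw [this, e1]; ring
      calc K ^ 2 = 512 * K ^ 4 * (u ^ 2 / 2) := h10
        _ ≤ x * (u ^ 2 / 2) := mul_le_mul_of_nonneg_right h5 (by positivity)
    calc (∑ a ∈ A, ((conf D l a t).card : ℝ)) + K ^ 2 ≤ x * (u + u ^ 2 / 2) + x * (u ^ 2 / 2) := by
          apply add_le_add _ h4
          exact (h1.trans h2).trans (mul_le_mul_of_nonneg_left h3 hx0.le)
      _ = _ := by ring
  have hnx : x * (1 - u - u ^ 2) ≤ n := by
    have h1 : (D.card : ℝ) ≤ n + (∑ a ∈ A, ((conf D l a t).card : ℝ)) + K ^ 2 := by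
      rw [hn, hK]; exact_mod_cast hBc
    rw [hDc] at h1
    have e : x * (1 - u - u ^ 2) = x - x * (u + u ^ 2) := by ring
    rw [e]; linarith
  have hu2 : u ^ 2 ≤ 1 / 16 * u := by
    rw [pow_two]; exact mul_le_mul_of_nonneg_right hu1 hu0.le
  refine ⟨B, hAB, hB0, hBS, hBA, ?_, ?_⟩
  · have h1 : (N0 : ℝ) ≤ n := by
      have h2 : x * (1 / 2) ≤ x * (1 - u - u ^ 2) := mul_le_mul_of_nonneg_left (by linarith) hx0.le
      have h3 : 0 < 4 / η ^ 3 := by positivity
      linarith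
    rw [hn] at h1
    exact_mod_cast h1
  · intro b hb
    have h1 : (b : ℝ) + l ≤ 2 * N := by exact_mod_cast hBN b hb
    have e4 : 1 / (4 * K) = 4 * u := by rw [hu]; field_simp; norm_num
    have e8 : (N : ℝ) / (2 * K) = 8 * u * N := by rw [hu]; field_simp; norm_num
    rw [e4]
    rw [e8] at hlr2
    have hxu : 1 ≤ x ^ 2 * u ^ 2 := by
      have h5 : 1 ≤ x * u := by
        have h6 : x * η ≤ x * u := mul_le_mul_of_nonneg_left (by linarith) hx0.le
        linarith
      have e : x ^ 2 * u ^ 2 = (x * u) ^ 2 := by ring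
      rw [e]; exact one_le_pow₀ h5
    exact aux_fin x u n b N l hx0 hu0 hu1 hNr hxu hnx h1 hlr2

/-- Every finite Sidon set `A` of positive integers has arbitrarily long Sidon extensions `B` whose largest element is
at most `(2 - 1 / (4 |A|)) |B| ^ 2`. -/
theorem result (A : Finset ℕ) (hne : A.Nonempty) (hA0 : 0 ∉ A)
    (hA : ∀ a ∈ A, ∀ b ∈ A, ∀ c ∈ A, ∀ d ∈ A, a + b = c + d → (a = c ∧ b = d) ∨ (a = d ∧ b = c))
    (N0 : ℕ) :
    ∃ B : Finset ℕ, A ⊆ B ∧ 0 ∉ B ∧
      (∀ a ∈ B, ∀ b ∈ B, ∀ c ∈ B, ∀ d ∈ B, a + b = c + d → (a = c ∧ b = d) ∨ (a = d ∧ b = c)) ∧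
      (∀ b ∈ B, b ∉ A → ∀ a ∈ A, a < b) ∧ N0 ≤ B.card ∧
      ∀ b ∈ B, (b : ℝ) ≤ (2 - 1 / (4 * A.card)) * (B.card : ℝ) ^ 2 :=
  main A hne hA0 hA N0

end Pool.Agent.Results.MP_2a564b_nt.BelowTwo
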