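import Mathlib
import Pool.Agent.Lib.MP_2a564b_nt.NearJ

set_option autoImplicit false

namespace Pool.Agent.Results.MP_2a564b_nt.FarFromPlanes

open Pool.Agent.Lib.MP_2a564b_nt.Near

/-- Let `A` be a finite set of naturals for which `u - 2 t = z1` has at least three and
`u - 2 t = z2` at least two solutions `t, u` in `A`, where `z1 ≠ z2` (for example
`A = {1, 2, 4, 8, 13}` with `z1 = 0`, `z2 = -3`). Then every large Sidon set `B` which contains
`A` and whose elements are at most `(1 + 1/10000) |B|^2` has at least `|B| / 10000` elements whose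
residues modulo `v` are not in `T`, for every planar, affine or direct product difference set `T`
in a cyclic group `Z/v` with `v ≤ |B|^3`. -/
theorem result : ∀ (A : Finset ℕ) (z1 z2 : ℤ), z1 ≠ z2 →
    3 ≤ ((A ×ˢ A).filter (fun p => (p.2 : ℤ) - 2 * p.1 = z1)).card →
    2 ≤ ((A ×ˢ A).filter (fun p => (p.2 : ℤ) - 2 * p.1 = z2)).card →
    ∃ N0 : ℕ, ∀ B : Finset ℕ, A ⊆ B →
      (∀ a ∈ B, ∀ b ∈ B, ∀ c ∈ B, ∀ d ∈ B, a + b = c + d →
        (a = c ∧ b = d) ∨ (a = d ∧ b = c)) →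
      N0 ≤ B.card → (∀ b ∈ B, 10000 * b ≤ 10001 * B.card ^ 2) →
      ∀ (v : ℕ) (T : Finset (ZMod v)), v ≤ B.card ^ 3 → IsPlaneSet v T →
        10000 * (B.filter (fun b => ((b : ℕ) : ZMod v) ∈ T)).card ≤ 9999 * B.card :=
  fun A z1 z2 h12 h1 h2 => main A z1 z2 h12 h1 h2

end Pool.Agent.Results.MP_2a564b_nt.FarFromPlanes
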