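import Pool.Agent.Lib.MP_2a564b_nt.Main

set_option autoImplicit false

/-!
# Sets of the form `t + c b ^ i` have Sidon extensions of nearly optimal length

Let `b` be a prime or `4`, and let `A` be a finite set of positive integers each of which is of the
form `t + c * b ^ i`, or is `t` itself if `b` is not `2`. Then `A` extends, by adding only numbers
larger than `max A`, to Sidon sets of size `n`, for arbitrarily large `n`, with all elements at most
`(1 + ε) * n ^ 2`.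
-/

namespace Pool.Agent.Results.MP_2a564b_nt.PowerOrbits

/-- Every finite set of positive integers of the form `t + c * b ^ i` (and `t`, if `b` is not `2`),
`b` a prime or `4`, has Sidon extensions of nearly optimal length. -/
theorem result (b : ℕ) (hb : b.Prime ∨ b = 4) (c t : ℤ) (hc : c ≠ 0) (A : Finset ℕ) (hA0 : 0 ∉ A)
    (hA : ∀ a ∈ A, (∃ i : ℕ, (a : ℤ) = t + c * (b : ℤ) ^ i) ∨ (b ≠ 2 ∧ (a : ℤ) = t)) :
    ∀ ε : ℝ, 0 < ε → ∀ N0 : ℕ, ∃ n : ℕ, N0 ≤ n ∧
      ∃ B : Finset ℕ, A ⊆ B ∧ 0 ∉ B ∧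
        (∀ x ∈ B, ∀ y ∈ B, ∀ z ∈ B, ∀ w ∈ B, x + y = z + w →
          (x = z ∧ y = w) ∨ (x = w ∧ y = z)) ∧
        (∀ x ∈ B, x ∉ A → ∀ a ∈ A, a < x) ∧
        B.card = n ∧
        ∀ x ∈ B, (x : ℝ) ≤ (1 + ε) * (n : ℝ) ^ 2 :=
  fun ε hε N0 => Pool.Agent.Lib.MP_2a564b_nt.main_theorem b hb c t hc A hA0 hA ε hε N0

end Pool.Agent.Results.MP_2a564b_nt.PowerOrbits
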